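import Pool.Agent.Helper13_Eng2.Stmts
import Pool.Agent.Helper69_Eng.Sbr

/-!
Squad ENG2: modules HBR (braid criterion for PSU) and HABV (section criterion for PSU).
-/

set_option autoImplicit false

namespace Pool.Agent.Eng.H19

open Pool.Agent.Eng.H69

/-- Module HBR. -/
theorem hbr (hBr : BraidStmt) (hTr : HtrStmt) (hCen : HcvStmt) (hInj : PdInjStmt) :
    HbrStmt := by
  intro K V _ _ _ _ _ _ h n N hst hh hdim w z hw hz hbr hc
  obtain ⟨e⟩ := hTr K V h n hst hh hdim
  have h1 : PD (↥(SUV h) ⧸ Subgroup.center ↥(SUV h)) N := by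
    apply hBr ↥(SUV h) (Subgroup.center ↥(SUV h)) ⟨w, hw⟩ ⟨z, hz⟩ N
    · apply Subtype.ext
      exact hbr
    · intro d hd hmem
      obtain ⟨c, hcc⟩ := hCen K V h hst hh _ hmem
      apply hc d c hd
      intro v
      have := hcc ((w ^ (2 * d)) (z v))
      rw [← this]
      simp only [Subgroup.coe_mul, Subgroup.coe_inv, Subgroup.coe_pow, LinearEquiv.mul_apply]
      congr 1
      have h2 : (w ^ (2 * d))⁻¹ ((w ^ (2 * d)) (z v)) = z v := by
        rw [← LinearEquiv.mul_apply, inv_mul_cancel]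
        rfl
      have h3 : z⁻¹ (z v) = v := by
        rw [← LinearEquiv.mul_apply, inv_mul_cancel]
        rfl
      rw [h2, h3]
  have e2 : ↥(SUV h) ⧸ Subgroup.center ↥(SUV h) ≃* PSU n K :=
    QuotientGroup.congr _ _ e (map_center e)
  exact hInj _ _ e2.toMonoidHom N e2.injective h1

theorem map_eng {G H : Type} [Group G] [Group H] (f : G →* H) (y x : G) :
    f (eng y x) = eng (f y) (f x) := by
  simp [eng]

theorem map_eng_iter {G H : Type} [Group G] [Group H] (f : G →* H) (y x : G) (k : ℕ) :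
    f ((eng y)^[k] x) = (eng (f y))^[k] (f x) := by
  induction k with
  | zero => rfl
  | succ k ih => rw [Function.iterate_succ_apply', Function.iterate_succ_apply', map_eng, ih]

theorem law_of_equiv {G H : Type} [Group G] [Group H] (e : G ≃* H) (d : ℕ) (hl : Law H d) :
    Law G d := by
  obtain ⟨r, hr⟩ := hl
  refine ⟨r, fun x y => e.injective ?_⟩
  have h1 := map_eng_iter (e : G →* H) y x r
  have h2 := map_eng_iter (e : G →* H) y x (r + d)
  change e _ = _ at h1
  change e _ = _ at h2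
  rw [h1, h2]
  exact hr _ _

/-- Module HABV. -/
theorem habv (hAb : HabStmt) (hTr : HtrStmt) (hCen : HcvStmt) : HabvStmt := by
  intro K V _ _ _ _ _ _ h n hst hh hdim M _ π S y T hS hy hT hsc hsur d hlaw
  obtain ⟨e⟩ := hTr K V h n hst hh hdim
  have e2 : ↥(SUV h) ⧸ Subgroup.center ↥(SUV h) ≃* PSU n K :=
    QuotientGroup.congr _ _ e (map_center e)
  have hlaw2 : Law (↥(SUV h) ⧸ Subgroup.center ↥(SUV h)) d := law_of_equiv e2 d hlaw
  refine hAb ↥(SUV h) (Subgroup.center ↥(SUV h)) M (fun g => π (g : V ≃ₗ[K] V))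
    {g | (g : V ≃ₗ[K] V) ∈ S} ⟨y, hy⟩ T ?_ ?_ ?_ d hlaw2
  · intro x hx
    exact hT _ hx
  · intro x z hx hz hxz
    obtain ⟨c, hc⟩ := hCen K V h hst hh z hz
    refine hsc (x : V ≃ₗ[K] V) hx _ hxz c (fun v => ?_)
    rw [Subgroup.coe_mul, LinearEquiv.mul_apply, hc, map_smul]
  · intro m
    obtain ⟨x, hx, hxm⟩ := hsur m
    exact ⟨⟨x, hS x hx⟩, hx, hxm⟩

end Pool.Agent.Eng.H19
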